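import Mathlib
import Pool.Agent.X26.AN.PalLD

/-!
# Large deviations: all neighbours of palindromic primes have the expected number of prime factors

Fix a base `b ≥ 2` (for this problem `b = 10`), `u ≥ 1`, `A` and `θ > 0`. Consider the base-`b` palindromes `n` with
`2 N + 1` digits whose `N - L` leading digits are those of a given `x` (`L ≥ θ N`) and that are prime or have no prime
factor `≤ b ^ (N / u)`. Let `Q(t) = t log t - t + 1`. For every set `B` of at most `N ^ τ` integers `a ≠ 0` with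
`|a| ≤ b ^ (A N)`: if `β > 1` and `Q(β) > τ`, then for all but `(b ^ L / L) N ^ (-c)` of these `n` ALL the numbers
`n + a`, `a ∈ B`, have fewer than `β log N` prime factors (`c` arbitrarily close to `Q(β) - τ`); if `0 < α < 1` and
`Q(α) > τ`, they all have more than `α log N` prime factors.
-/

set_option autoImplicit false

namespace Pool.Agent.Results.MP_540de1_nt.NeighboursOfPalindromicPrimes

open Finset
open Pool.Agent.X26.AN (QQ palLD)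

/-- the base-`b` digits of `n` read the same forwards and backwards -/
def Palindrome (b n : ℕ) : Prop := (Nat.digits b n).reverse = Nat.digits b n

/-- `n` has no prime factor `≤ y` -/
def Rough (y : ℝ) (n : ℕ) : Prop := ∀ q : ℕ, q.Prime → q ∣ n → y < q

/-- the number of distinct primes dividing `m` -/
def omega (m : ℤ) : ℕ := m.natAbs.primeFactors.card

/-- the rate function -/
noncomputable def rate (t : ℝ) : ℝ := t * Real.log t - t + 1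

theorem union_ld {b : ℕ} (hb : 2 ≤ b) (u A : ℕ) (hu : 1 ≤ u) {θ γ τ c : ℝ} (hθ : 0 < θ) (hγ : 0 < γ)
    (hc : c < rate γ - τ) :
    ∃ L₀ : ℕ, ∀ L N x : ℕ, L₀ ≤ L → L < N → θ * N ≤ L → b ^ (2 * N) ≤ x → x < b ^ (2 * N + 1) →
    ∀ B : Finset ℤ, (B.card : ℝ) ≤ (N : ℝ) ^ τ → (∀ a ∈ B, a ≠ 0 ∧ |a| ≤ (b : ℤ) ^ (A * N)) →
    ∀ P : ℕ → Prop, (∀ n, P n → Palindrome b n ∧ n / b ^ (N + L + 1) = x / b ^ (N + L + 1) ∧
      (n.Prime ∨ Rough ((b : ℝ) ^ ((N : ℝ) / u)) n) ∧ ∃ a ∈ B, (n : ℤ) + a ≠ 0 ∧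
        0 ≤ (γ - 1) * ((omega ((n : ℤ) + a) : ℝ) - γ * Real.log N)) →
    ∀ S : Finset ℕ, S ⊆ range (b ^ (2 * N + 1)) → (∀ n ∈ S, P n) →
    (S.card : ℝ) ≤ (b : ℝ) ^ L / L * (N : ℝ) ^ (-c) := by
  classical
  obtain ⟨L₀, hL₀⟩ := palLD hb u A hu (ε := QQ γ - τ - c) hθ hγ (by
    have : QQ γ = rate γ := rfl
    linarith)
  refine ⟨L₀, ?_⟩
  intro L N x hL hLN hθL hx1 hx2 B hB hBa P hP S hS hSP
  have hN0 : (0 : ℝ) < N := by exact_mod_cast (show 0 < N by omega)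
  obtain ⟨R, hR⟩ : ∃ R : ℤ → Finset ℕ, R = fun a : ℤ => (range (b ^ (2 * N + 1))).filter (fun n : ℕ =>
      (Nat.digits b n).reverse = Nat.digits b n ∧
      n / b ^ (N + L + 1) = x / b ^ (N + L + 1) ∧
      (n.Prime ∨ ∀ q : ℕ, q.Prime → q ∣ n → (b : ℝ) ^ ((N : ℝ) / u) < q) ∧ (n : ℤ) + a ≠ 0 ∧
      0 ≤ (γ - 1) * ((((n : ℤ) + a).natAbs.primeFactors.card : ℝ) - γ * Real.log N)) := ⟨_, rfl⟩
  have h1 : S ⊆ B.biUnion R := by
    intro n hn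
    obtain ⟨h2, h3, h4, a, ha, h5, h6⟩ := hP n (hSP n hn)
    rw [mem_biUnion]
    refine ⟨a, ha, ?_⟩
    rw [hR, mem_filter]
    exact ⟨hS hn, h2, h3, h4, h5, h6⟩
  have h2 : ∀ a ∈ B, ((R a).card : ℝ) ≤ (b : ℝ) ^ L / L * (N : ℝ) ^ (-(QQ γ - (QQ γ - τ - c))) := by
    intro a ha
    obtain ⟨h3, h4⟩ := hBa a ha
    rw [hR]
    exact hL₀ L N x hL hLN hθL hx1 hx2 a h3 h4
  have h3 : (S.card : ℝ) ≤ ∑ a ∈ B, ((R a).card : ℝ) := by
    exact_mod_cast (card_le_card h1).trans card_biUnion_le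
  refine h3.trans ((sum_le_sum h2).trans ?_)
  rw [sum_const, nsmul_eq_mul]
  have e : -(QQ γ - (QQ γ - τ - c)) = -τ + -c := by ring
  rw [e, Real.rpow_add hN0]
  have h4 : (N : ℝ) ^ τ * (N : ℝ) ^ (-τ) = 1 := by
    rw [← Real.rpow_add hN0, add_neg_cancel, Real.rpow_zero]
  calc (B.card : ℝ) * ((b : ℝ) ^ L / L * ((N : ℝ) ^ (-τ) * (N : ℝ) ^ (-c)))
      ≤ (N : ℝ) ^ τ * ((b : ℝ) ^ L / L * ((N : ℝ) ^ (-τ) * (N : ℝ) ^ (-c))) :=
        mul_le_mul_of_nonneg_right hB (by positivity)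
    _ = (b : ℝ) ^ L / L * (N : ℝ) ^ (-c) * ((N : ℝ) ^ τ * (N : ℝ) ^ (-τ)) := by ring
    _ = _ := by rw [h4, mul_one]

open Classical in
/-- Let `b ≥ 2`, `u ≥ 1`, `A`, `θ > 0`. (1) Let `β > 1`, `τ` and `c < β log β - β + 1 - τ`. For all large `L`, all
`N > L` with `L ≥ θ N`, all `x` with `2 N + 1` digits in base `b` and all sets `B` of at most `N ^ τ` integers `a ≠ 0`
with `|a| ≤ b ^ (A N)`: at most `(b ^ L / L) N ^ (-c)` of the base-`b` palindromes `n` with `2 N + 1` digits that share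
the `N - L` leading digits with `x` and that are prime or have no prime factor `≤ b ^ (N / u)` are such that `n + a` has
at least `β log N` prime factors for SOME `a ∈ B`. (2) The same with at most `α log N` prime factors (and
`n + a ≠ 0`) for `0 < α < 1` and `c < α log α - α + 1 - τ`. -/
theorem result (b : ℕ) (hb : 2 ≤ b) (u A : ℕ) (hu : 1 ≤ u) (θ : ℝ) (hθ : 0 < θ) :
    (∀ β τ c : ℝ, 1 < β → c < rate β - τ → ∃ L₀ : ℕ, ∀ L N x : ℕ, L₀ ≤ L → L < N → θ * N ≤ L →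
      b ^ (2 * N) ≤ x → x < b ^ (2 * N + 1) → ∀ B : Finset ℤ, (B.card : ℝ) ≤ (N : ℝ) ^ τ →
      (∀ a ∈ B, a ≠ 0 ∧ |a| ≤ (b : ℤ) ^ (A * N)) →
      (((range (b ^ (2 * N + 1))).filter (fun n : ℕ => Palindrome b n ∧
        n / b ^ (N + L + 1) = x / b ^ (N + L + 1) ∧ (n.Prime ∨ Rough ((b : ℝ) ^ ((N : ℝ) / u)) n) ∧
        ∃ a ∈ B, (n : ℤ) + a ≠ 0 ∧ β * Real.log N ≤ omega ((n : ℤ) + a))).card : ℝ) ≤
      (b : ℝ) ^ L / L * (N : ℝ) ^ (-c)) ∧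
    (∀ α τ c : ℝ, 0 < α → α < 1 → c < rate α - τ → ∃ L₀ : ℕ, ∀ L N x : ℕ, L₀ ≤ L → L < N → θ * N ≤ L →
      b ^ (2 * N) ≤ x → x < b ^ (2 * N + 1) → ∀ B : Finset ℤ, (B.card : ℝ) ≤ (N : ℝ) ^ τ →
      (∀ a ∈ B, a ≠ 0 ∧ |a| ≤ (b : ℤ) ^ (A * N)) →
      (((range (b ^ (2 * N + 1))).filter (fun n : ℕ => Palindrome b n ∧
        n / b ^ (N + L + 1) = x / b ^ (N + L + 1) ∧ (n.Prime ∨ Rough ((b : ℝ) ^ ((N : ℝ) / u)) n) ∧
        ∃ a ∈ B, (n : ℤ) + a ≠ 0 ∧ (omega ((n : ℤ) + a) : ℝ) ≤ α * Real.log N)).card : ℝ) ≤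
      (b : ℝ) ^ L / L * (N : ℝ) ^ (-c)) := by
  constructor
  · intro β τ c hβ hc
    obtain ⟨L₀, hL₀⟩ := union_ld hb u A hu hθ (show 0 < β by linarith) hc
    refine ⟨L₀, ?_⟩
    intro L N x hL hLN hθL hx1 hx2 B hB hBa
    refine hL₀ L N x hL hLN hθL hx1 hx2 B hB hBa _ (fun n h => h) _ (filter_subset _ _) ?_
    intro n hn
    rw [mem_filter] at hn
    obtain ⟨-, h1, h2, h3, a, ha, h4, h5⟩ := hn
    exact ⟨h1, h2, h3, a, ha, h4, mul_nonneg (by linarith) (by linarith)⟩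
  · intro α τ c hα hα1 hc
    obtain ⟨L₀, hL₀⟩ := union_ld hb u A hu hθ hα hc
    refine ⟨L₀, ?_⟩
    intro L N x hL hLN hθL hx1 hx2 B hB hBa
    refine hL₀ L N x hL hLN hθL hx1 hx2 B hB hBa _ (fun n h => h) _ (filter_subset _ _) ?_
    intro n hn
    rw [mem_filter] at hn
    obtain ⟨-, h1, h2, h3, a, ha, h4, h5⟩ := hn
    exact ⟨h1, h2, h3, a, ha, h4, mul_nonneg_of_nonpos_of_nonpos (by linarith) (by linarith)⟩

end Pool.Agent.Results.MP_540de1_nt.NeighboursOfPalindromicPrimes
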