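import Pool.Agent.X220.PD.Sys

/-!
# Systems of polynomials at decimal palindromes: almost primes and primes

Let `f_1, …, f_k` be irreducible integer polynomials of positive degree, pairwise not associated, such that no prime divides
`f_1(n) ⋯ f_k(n)` for every `n`; for example `n` and `n + 2`, or `n` and `n ^ 2 + n + 1`, or any admissible `n + h_1, …, n + h_k`.
We consider the palindromes `n` with `2 N + 1` decimal digits whose `N - L` leading digits and whose middle digit are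
prescribed (there are `10 ^ L` of them, in a short interval if `L < N - 1`).

* Almost primes: if `f_i(a)` is coprime to `10` for the leading digit `a` and all `i`, then all the `f_i(n)` have at most
  `r N / L` prime factors, all of them greater than `10 ^ (L / K)`, for at least `c 10 ^ L / L ^ k` of these palindromes.
* Primes: all the `|f_i(n)|` are primes for at most `C 10 ^ L / L ^ k` of these palindromes.
* The number of these palindromes for which no `f_i(n)` has a prime factor up to `y ≤ 10 ^ (L / K)` is given by an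
  asymptotic formula.

The last digit is `a`; hence, if `f_i(a)` is not coprime to `10`, then `f_i(n)` is even or divisible by `5` for all these `n`.
The proof combines the exponential sums over palindromes in the starting files with a sieve of arbitrary dimension.
-/

set_option autoImplicit false

namespace Pool.Agent.Results.MP_540de1_nt.PolynomialSystems

open Finset Polynomial

/-- `n` is a palindrome with at most `2 N + 1` decimal digits, whose `N - L` leading digits are those of `x` (a number with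
`2 N + 1` digits) and whose middle digit is `e` -/
def Pal (N L x e n : ℕ) : Prop :=
  n < 10 ^ (2 * N + 1) ∧ (Nat.digits 10 n).reverse = Nat.digits 10 n ∧ n / 10 ^ (N + L + 1) = x / 10 ^ (N + L + 1) ∧
    n / 10 ^ N % 10 = e

/-- the product over the primes `q ≤ y`, `q ≠ 2`, `q ≠ 5`, of `1 - ν(q) / q`, where `ν(q)` is the number of the residues `n`
modulo `q` for which `q` divides one of the values -/
noncomputable def V {k : ℕ} (f : Fin k → ℤ[X]) (y : ℕ) : ℝ :=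
  ∏ q ∈ (Icc 1 y).filter (fun q => q.Prime ∧ q ≠ 2 ∧ q ≠ 5),
    (1 - (Set.ncard {n : ℕ | n < q ∧ ∃ i, (q : ℤ) ∣ (f i).eval (n : ℤ)} : ℝ) / q)

/-- the values at the leading digit of `x` are coprime to `10` -/
def Good {k : ℕ} (f : Fin k → ℤ[X]) (N x : ℕ) : Prop :=
  ∀ i, ¬ (2 : ℤ) ∣ (f i).eval ((x / 10 ^ (2 * N) : ℕ) : ℤ) ∧ ¬ (5 : ℤ) ∣ (f i).eval ((x / 10 ^ (2 * N) : ℕ) : ℤ)

lemma spr : Pool.Agent.X220.PD.Spr 10 (fun _ => (0 : ZMod 1)) := by
  intro χ hχ
  exfalso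
  apply hχ
  ext x
  have : x = 0 := Subsingleton.elim _ _
  rw [this]
  simp

lemma card_eq (N L x e : ℕ) (P : ℕ → Prop) [DecidablePred P] :
    Set.ncard {n : ℕ | Pal N L x e n ∧ P n} =
      ((Pool.Agent.X220.PD.Pals 10 N L x e (fun _ => (0 : ZMod 1)) 0).filter P).card := by
  rw [← Set.ncard_coe_finset]
  congr 1
  ext n
  simp only [Set.mem_ofPred_eq, coe_filter, Pool.Agent.X220.PD.Pals, Pal, mem_filter, mem_range]
  constructor
  · rintro ⟨⟨h1, h2, h3, h4⟩, h5⟩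
    exact ⟨⟨h1, h2, h3, h4, Subsingleton.elim _ _⟩, h5⟩
  · rintro ⟨⟨h1, h2, h3, h4, _⟩, h5⟩
    exact ⟨⟨h1, h2, h3, h4⟩, h5⟩

lemma loc {k : ℕ} {f : Fin k → ℤ[X]} {N x : ℕ} (e : ℕ) (h : Good f N x) : Pool.Agent.X220.PD.Loc 10 N x e f := by
  refine ⟨fun p hp hp10 i => ?_, fun h2 => absurd (by norm_num) h2⟩
  have h3 : p ∣ 2 * 5 := hp10
  rcases (Nat.Prime.dvd_mul hp).1 h3 with h5 | h5
  · rw [(Nat.prime_dvd_prime_iff_eq hp Nat.prime_two).1 h5]
    exact (h i).1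
  · rw [(Nat.prime_dvd_prime_iff_eq hp Nat.prime_five).1 h5]
    exact (h i).2

lemma V_eq {k : ℕ} (f : Fin k → ℤ[X]) (y : ℕ) :
    Pool.Agent.X55.Fam.VQ (Pool.Agent.X220.PD.Qb 10 f) y = V f y := by
  classical
  have h1 : (Icc 1 y).filter (fun q => q.Prime ∧ q ≠ 2 ∧ q ≠ 5) =
      (Pool.Agent.H373R2.T7.pz y).filter (fun p => ¬ p ∣ 2 * 10) := by
    ext q
    rw [mem_filter, mem_filter, mem_Icc, Pool.Agent.H373R2.T7.mem_pz]
    constructor
    · rintro ⟨⟨_, h2⟩, h3, h4, h5⟩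
      refine ⟨⟨h2, h3⟩, fun hd => ?_⟩
      rcases (Nat.Prime.dvd_mul h3).1 hd with h6 | h6
      · exact h4 ((Nat.prime_dvd_prime_iff_eq h3 Nat.prime_two).1 h6)
      · have h7 : q ∣ 2 * 5 := h6
        rcases (Nat.Prime.dvd_mul h3).1 h7 with h8 | h8
        · exact h4 ((Nat.prime_dvd_prime_iff_eq h3 Nat.prime_two).1 h8)
        · exact h5 ((Nat.prime_dvd_prime_iff_eq h3 Nat.prime_five).1 h8)
    · rintro ⟨⟨h2, h3⟩, h4⟩
      refine ⟨⟨h3.one_le, h2⟩, h3, ?_, ?_⟩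
      · rintro rfl; exact h4 (by norm_num)
      · rintro rfl; exact h4 (by norm_num)
  unfold V Pool.Agent.X55.Fam.VQ
  rw [h1, prod_filter]
  apply prod_congr rfl
  intro p _
  rw [Pool.Agent.X220.PD.nu_Qb]
  by_cases hp : p ∣ 2 * 10
  · rw [if_pos hp, if_neg (not_not.2 hp)]
    simp
  · rw [if_neg hp, if_pos hp]
    have h2 : Pool.Agent.H373R2.T7.nuB (Pool.Agent.X55.Fam.QQ f) p =
        Set.ncard {n : ℕ | n < p ∧ ∃ i, (p : ℤ) ∣ (f i).eval (n : ℤ)} := by
      unfold Pool.Agent.H373R2.T7.nuB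
      rw [← Set.ncard_coe_finset]
      congr 1
      ext n
      simp only [coe_filter, mem_range, Set.mem_ofPred_eq]
      rfl
    rw [h2]

theorem result {k : ℕ} (f : Fin k → ℤ[X]) (hirr : ∀ i, Irreducible (f i)) (hdeg : ∀ i, 0 < (f i).natDegree)
    (hass : ∀ i j, i ≠ j → ¬ Associated (f i) (f j))
    (hfix : ∀ p : ℕ, p.Prime → ∃ n : ℕ, ∀ i, ¬ (p : ℤ) ∣ (f i).eval (n : ℤ)) :
    (∃ (r K L₀ : ℕ) (c C : ℝ), 1 ≤ K ∧ 0 < c ∧ 0 < C ∧ ∀ L N x e : ℕ, L₀ ≤ L → L < N →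
      10 ^ (2 * N) ≤ x → x < 10 ^ (2 * N + 1) → e < 10 →
      (Good f N x → c * 10 ^ L / (L : ℝ) ^ k ≤ Set.ncard {n : ℕ | Pal N L x e n ∧ ∀ i,
        ((f i).eval (n : ℤ)).natAbs ≠ 0 ∧ ((f i).eval (n : ℤ)).natAbs.primeFactorsList.length * L ≤ r * N ∧
        ∀ p : ℕ, p.Prime → p ∣ ((f i).eval (n : ℤ)).natAbs → 10 ^ L < p ^ K}) ∧
      (Set.ncard {n : ℕ | Pal N L x e n ∧ ∀ i, ((f i).eval (n : ℤ)).natAbs.Prime} : ℝ) ≤ C * 10 ^ L / (L : ℝ) ^ k) ∧
    (∀ ε : ℝ, 0 < ε → ∃ K L₀ : ℕ, 1 ≤ K ∧ ∀ L N x e : ℕ, L₀ ≤ L → L < N →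
      10 ^ (2 * N) ≤ x → x < 10 ^ (2 * N + 1) → e < 10 → Good f N x → ∀ y : ℕ, 3 ≤ y → y ^ K ≤ 10 ^ L →
      |(Set.ncard {n : ℕ | Pal N L x e n ∧ ∀ q : ℕ, q.Prime → q ≤ y → ∀ i, ¬ (q : ℤ) ∣ (f i).eval (n : ℤ)} : ℝ) -
        10 ^ L * V f y| ≤ ε * (10 ^ L * V f y)) := by
  classical
  have h : Pool.Agent.X55.Fam.Sys k f := ⟨hirr, hdeg, hass, hfix⟩
  constructor
  · obtain ⟨r, K, L₀, c, C, hK, hc, hC, hb⟩ := Pool.Agent.X220.PD.sys_bounds (b := 10) (by norm_num)
      (fun _ => (0 : ZMod 1)) spr h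
    refine ⟨r, K, L₀, c, C, hK, hc, hC, fun L N x e hL hN h0 hx he => ?_⟩
    obtain ⟨h1, h2⟩ := hb L hL N x e hN h0 hx he 0
    constructor
    · intro hg
      rw [card_eq]
      have := h1 (loc e hg)
      push_cast at this
      convert this
    · rw [card_eq]
      push_cast at h2
      convert h2
  · intro ε hε
    obtain ⟨K, L₀, hK, hb⟩ := Pool.Agent.X220.PD.sys_asym (b := 10) (by norm_num) (fun _ => (0 : ZMod 1)) spr h ε hε
    refine ⟨K, L₀, hK, fun L N x e hL hN h0 hx he hg y hy hyK => ?_⟩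
    have h1 := hb L hL N x e hN h0 hx he (loc e hg) 0 y hy hyK
    rw [V_eq] at h1
    rw [card_eq]
    have e1 : ((10 : ℕ) : ℝ) ^ L / (Fintype.card (ZMod 1) : ℝ) = 10 ^ L := by simp [ZMod.card]
    rw [e1] at h1
    convert h1

end Pool.Agent.Results.MP_540de1_nt.PolynomialSystems
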