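import Pool.Agent.X37.PL.Pyr

/-!
# MP_540de1_nt: pyramids of palindromes without small prime factors

For a digit `d ∈ {3, 9}` and every height `k`: in every set of decimal palindromes with `2 N + 1` digits and
prescribed outer digits (the leading digit being coprime to `10`), with `L` free digits, there are
`≫ 10 ^ L / L ^ (k + 1)` palindromes `n` such that the `k + 1` nested palindromes `n`, `d n d`, `d d n d d`, …,
`d … d n d … d` (written by digits) have only prime factors `> 10 ^ (u L)`, `u = u (k) > 0`. The exponent `k + 1` of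
`L` is the one of the conjectured number of pyramids of palindromic primes. For `d ≤ 9` coprime to `10` and not
divisible by `3` one of the numbers `n`, `d n d`, `d d n d d` is always divisible by `3`.
-/

set_option autoImplicit false

namespace Pool.Agent.Results.MP_540de1_nt.Pyramids

open Finset

/-- the number whose decimal digits are `j` digits `d`, then the digits of `n`, then `j` digits `d` -/
def wrap (d j n : ℕ) : ℕ := Nat.ofDigits 10 (List.replicate j d ++ Nat.digits 10 n ++ List.replicate j d)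

open Classical in
theorem result (d : ℕ) (hd : d = 3 ∨ d = 9) (k : ℕ) :
    ∃ u c : ℝ, 0 < u ∧ 0 < c ∧ ∃ L₀ : ℕ, ∀ L N x e : ℕ, L₀ ≤ L → L < N → 10 ^ (2 * N) ≤ x →
      x < 10 ^ (2 * N + 1) → (x / 10 ^ (2 * N)).Coprime 10 → e < 10 →
        c * (10 : ℝ) ^ L / (L : ℝ) ^ (k + 1) ≤
        (((range (10 ^ (2 * N + 1))).filter (fun n => 10 ^ (2 * N) ≤ n ∧
          (Nat.digits 10 n).reverse = Nat.digits 10 n ∧ n / 10 ^ (N + L + 1) = x / 10 ^ (N + L + 1) ∧
          n / 10 ^ N % 10 = e ∧
          ∀ j ≤ k, (Nat.digits 10 (wrap d j n)).reverse = Nat.digits 10 (wrap d j n) ∧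
            (∀ p : ℕ, p.Prime → p ∣ wrap d j n → (10 : ℝ) ^ (u * L) < p) ∧
            ((wrap d j n).primeFactorsList.length : ℝ) * (u * L) < 2 * N + 1 + 2 * j)).card : ℝ) := by
  have h9 : ∀ p : ℕ, p.Prime → p ∣ 10 - 1 → p ∣ d := by
    intro p hp h
    have h1 : p ∣ 3 ^ 2 := by simpa using h
    have h2 := (Nat.prime_dvd_prime_iff_eq hp Nat.prime_three).1 (hp.dvd_of_dvd_pow h1)
    rcases hd with rfl | rfl
    · rw [h2]
    · rw [h2]; norm_num
  obtain ⟨u, c, hu, hc, L0, h⟩ := Pool.Agent.X37.PL.pyramids (b := 10) (d := d) (by norm_num)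
    (by rcases hd with rfl | rfl <;> norm_num) (by rcases hd with rfl | rfl <;> norm_num) h9 k
  refine ⟨u, c, hu, hc, L0, ?_⟩
  intro L N x e hL hN h1 h2 hx he
  have h3 := h L N x e hL hN h1 h2 hx he (Or.inl (by decide))
  have e10 : ((10 : ℕ) : ℝ) = 10 := by norm_num
  rw [e10] at h3
  exact h3

end Pool.Agent.Results.MP_540de1_nt.Pyramids
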