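import Mathlib
import Pool.Agent.X262.PAL.RC2
import Pool.Agent.W22.PW_M4

/-!
For every `M` coprime to 10 and all large `N`: in every residue class `h` modulo `M` with `h` coprime to `M` at least
`8 ^ N` of the decimal palindromes with exactly `2 N + 1` digits have at most three prime factors, counted with
multiplicity, all of them larger than `10 ^ (N / 9)`.
-/

set_option autoImplicit false

namespace Pool.Agent.Results.MP_540de1_nt.ResidueClasses

open Finset Filter Pool.Agent.W89.PW

/-- Let `M ≥ 1` be coprime to `10`.  For all large `N` and all `h` coprime to `M`, at least `8 ^ N` of the `n` with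
`10^(2N) ≤ n < 10^(2N+1)` and `n ≡ h (mod M)` whose decimal digit sequence equals its own reverse have at most three
prime factors counted with multiplicity, and each of these prime factors exceeds `10^(N/9)`. -/
theorem result (M : ℕ) (hM : M.Coprime 10) : ∀ᶠ N : ℕ in atTop, ∀ h : ℕ, h.Coprime M →
    8 ^ N ≤ ((range (10 ^ (2 * N + 1))).filter (fun n => 10 ^ (2 * N) ≤ n ∧ n ≡ h [MOD M] ∧
    (Nat.digits 10 n).reverse = Nat.digits 10 n ∧ n.primeFactorsList.length ≤ 3 ∧
    ∀ p ∈ n.primeFactorsList, (10 : ℝ) ^ ((N : ℝ) / 9) < p)).card := by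
  classical
  have hM0 : 0 < M := by
    rcases Nat.eq_zero_or_pos M with h | h
    · subst h
      norm_num at hM
    · exact h
  have hM2 : M.Coprime (2 * 10) := by
    have h2 : M.Coprime 2 := Nat.Coprime.coprime_dvd_right (by norm_num) hM
    exact Nat.Coprime.mul_right h2 hM
  have hm4 : ((10 : ℕ) : ℝ) * m4 5 6 < 1 := by
    have h := Pool.Agent.W22.PWM4.main 10 (by norm_num)
    norm_num at h
    push_cast
    linarith
  have hκ : (((10 : ℕ) : ℝ)) ^ (736 / 1000 : ℝ) * HH 5 6 < 1 := by
    have h1 : (10 : ℝ) ^ (736 / 1000 : ℝ) < 60 / 11 := by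
      have h2 : ((10 : ℝ) ^ (736 / 1000 : ℝ)) ^ 125 < (60 / 11) ^ 125 := by
        rw [← Real.rpow_natCast, ← Real.rpow_mul (by norm_num)]
        have e : (736 / 1000 : ℝ) * ((125 : ℕ) : ℝ) = ((92 : ℕ) : ℝ) := by norm_num
        rw [e, Real.rpow_natCast]
        norm_num
      exact lt_of_pow_lt_pow_left₀ 125 (by norm_num) h2
    unfold HH
    push_cast
    nlinarith
  have hE : (Eset 5 6).card = 110 := by decide +kernel
  have h := Pool.Agent.X262.PAL.almostNM (b := 10) (s := 5) (t := 6) (r := 3) (κ := 735 / 1000)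
    (κ' := 736 / 1000) (lam := 83 / 100) (B := 8)
    (η := 1 / 9) (by norm_num) (by norm_num) (by norm_num) (by norm_num) (by norm_num) (by norm_num) hκ hm4
    (by norm_num)
    (by norm_num) (by norm_num) (by norm_num) (by norm_num) (by rw [hE]; norm_num) (by norm_num) M hM0 hM2
  filter_upwards [h] with N hN
  intro a ha
  have hN1 := hN a ha
  have e : (((10 : ℕ) : ℝ)) ^ (1 / 9 * (N : ℝ)) = (10 : ℝ) ^ ((N : ℝ) / 9) := by
    push_cast
    congr 1
    ring
  simp only [e] at hN1
  have hN' : ((8 ^ N : ℕ) : ℝ) ≤ (((range (10 ^ (2 * N + 1))).filter (fun n => 10 ^ (2 * N) ≤ n ∧ n ≡ a [MOD M] ∧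
    (Nat.digits 10 n).reverse = Nat.digits 10 n ∧ n.primeFactorsList.length ≤ 3 ∧
    ∀ p ∈ n.primeFactorsList, (10 : ℝ) ^ ((N : ℝ) / 9) < p)).card : ℝ) := by
    push_cast
    refine hN1.trans (le_of_eq ?_)
    congr 1
    refine congrArg _ ?_
    ext n
    simp only [mem_filter]
    tauto
  exact_mod_cast hN'

end Pool.Agent.Results.MP_540de1_nt.ResidueClasses
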